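import Pool.Agent.W391.BGR.Stm

set_option autoImplicit false

namespace Pool.Agent.W309.BGRLC

open Pool.Agent.W391.BGR

/-- the rules as a list -/
def RL : List (Wd × Wd) :=
  [([0, 1], []), ([1, 0], []), ([4, 5], []), ([5, 4], []), ([4, 0], [0, 4, 4]),
    ([5, 0], [0, 5, 5]), ([4, 4, 1], [1, 4]), ([5, 1], [4, 1, 5]),
    ([2, 3], []), ([3, 2], []), ([3, 0], [0, 0, 3]), ([3, 1], [1, 1, 3]), ([2, 0, 0], [0, 2]),
    ([2, 1], [1, 2, 0]),
    ([6, 7], []), ([7, 6], []), ([6, 0], [4, 6]), ([6, 1], [5, 6]), ([6, 2], [0, 6]),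
    ([6, 3], [1, 6]), ([7, 4], [0, 7]), ([7, 5], [1, 7]), ([7, 0], [2, 7]), ([7, 1], [3, 7])]

theorem mem_RL (p : Wd × Wd) : p ∈ RR ↔ p ∈ RL := by
  simp only [RR, RA, RB, RT, RL, Finset.mem_union, Finset.mem_insert, Finset.mem_singleton,
    List.mem_cons, List.not_mem_nil, or_false, or_assoc]

def headStep (w : Wd) : Option Wd :=
  RL.findSome? (fun p => if p.1.isPrefixOf w then some (p.2 ++ w.drop p.1.length) else none)

def step : Wd → Option Wd
  | [] => none
  | c :: w => match headStep (c :: w) with
    | some v => some v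
    | none => match step w with
      | some v => some (c :: v)
      | none => none

def nf : ℕ → Wd → Wd
  | 0, w => w
  | k + 1, w => match step w with
    | none => w
    | some v => nf k v

theorem St_ctx (x y : Wd) {u v : Wd} (h : St RR u v) : St RR (x ++ u ++ y) (x ++ v ++ y) := by
  obtain ⟨a, b, p, hp, rfl, rfl⟩ := h
  exact ⟨x ++ a, b ++ y, p, hp, by simp, by simp⟩

theorem ctx (x y : Wd) {u v : Wd} (h : Relation.ReflTransGen (St RR) u v) :
    Relation.ReflTransGen (St RR) (x ++ u ++ y) (x ++ v ++ y) := by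
  induction h with
  | refl => exact .refl
  | tail _ hs ih => exact ih.tail (St_ctx x y hs)

theorem headStep_sound {w v : Wd} (h : headStep w = some v) : St RR w v := by
  unfold headStep at h
  obtain ⟨p, hp, h2⟩ := List.exists_of_findSome?_eq_some h
  split_ifs at h2 with h3
  obtain ⟨t, rfl⟩ := List.isPrefixOf_iff_prefix.1 h3
  refine ⟨[], t, p, (mem_RL p).2 hp, by simp, ?_⟩
  have h4 := Option.some.inj h2
  rw [← h4]
  simp

theorem step_sound : ∀ {w v : Wd}, step w = some v → St RR w v
  | [], v, h => by simp [step] at h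
  | c :: w, v, h => by
    unfold step at h
    split at h
    · next v' hv' =>
      have := Option.some.inj h
      subst this
      exact headStep_sound hv'
    · split at h
      · next v' hv' =>
        have := Option.some.inj h
        subst this
        have h5 := St_ctx [c] [] (step_sound hv')
        simpa using h5
      · exact absurd h (by simp)

theorem nf_sound : ∀ (k : ℕ) (w : Wd), Relation.ReflTransGen (St RR) w (nf k w)
  | 0, _ => .refl
  | k + 1, w => by
    unfold nf
    split
    · exact .refl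
    · next v hv => exact (nf_sound k v).head (step_sound hv)

def chk (p q : Wd × Wd) : Bool := (List.range p.1.length).all fun d =>
  (!((p.1.drop d).isPrefixOf q.1) ||
    (nf 30 (p.2 ++ q.1.drop (p.1.drop d).length) == nf 30 (p.1.take d ++ q.2))) &&
  (!(q.1.isPrefixOf (p.1.drop d)) ||
    (nf 30 p.2 == nf 30 (p.1.take d ++ q.2 ++ (p.1.drop d).drop q.1.length)))

set_option maxRecDepth 100000 in
theorem chk_all : (RL.all fun p => RL.all fun q => chk p q) = true := by decide +kernel

theorem join_of_nf {u v : Wd} (x y : Wd) (h : nf 30 u = nf 30 v) :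
    Relation.Join (Relation.ReflTransGen (St RR)) (x ++ u ++ y) (x ++ v ++ y) :=
  ⟨x ++ nf 30 u ++ y, ctx x y (nf_sound 30 u), by rw [h]; exact ctx x y (nf_sound 30 v)⟩

theorem disj {p q : Wd × Wd} (hp : p ∈ RR) (hq : q ∈ RR) (x a y' : Wd) :
    Relation.Join (Relation.ReflTransGen (St RR)) (x ++ p.2 ++ (a ++ (q.1 ++ y')))
      (x ++ (p.1 ++ a) ++ q.2 ++ y') := by
  refine ⟨x ++ p.2 ++ a ++ q.2 ++ y', .single ⟨x ++ p.2 ++ a, y', q, hq, by simp, by simp⟩,
    .single ⟨x, a ++ q.2 ++ y', p, hp, by simp, by simp⟩⟩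

theorem crit {p q : Wd × Wd} (hp : p ∈ RR) (hq : q ∈ RR) (x x' y y' : Wd)
    (h : x ++ p.1 ++ y = x' ++ q.1 ++ y') (hle : x.length ≤ x'.length) :
    Relation.Join (Relation.ReflTransGen (St RR)) (x ++ p.2 ++ y) (x' ++ q.2 ++ y') := by
  have hpre : x <+: x' := List.prefix_of_prefix_length_le (l₃ := x ++ p.1 ++ y)
    ⟨p.1 ++ y, by simp⟩ ⟨q.1 ++ y', by rw [h]; simp⟩ hle
  obtain ⟨s, rfl⟩ := hpre
  have h1 : p.1 ++ y = s ++ (q.1 ++ y') := by
    simpa [List.append_assoc] using h
  have hc := chk_all
  rw [List.all_eq_true] at hc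
  have hc1 := hc p ((mem_RL p).1 hp)
  rw [List.all_eq_true] at hc1
  have hc2 := hc1 q ((mem_RL q).1 hq)
  unfold chk at hc2
  rw [List.all_eq_true] at hc2
  rcases List.append_eq_append_iff.1 h1 with ⟨a, hs, hy⟩ | ⟨r, hp1, hy⟩
  · -- disjoint
    subst hs
    rw [hy]
    exact disj hp hq x a y'
  · by_cases hr : r = []
    · subst hr
      simp only [List.append_nil] at hp1
      simp only [List.nil_append] at hy
      rw [← hp1, ← hy]
      have := disj hp hq x [] y'
      simpa using this
    · have hlen : s.length < p.1.length := by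
        rw [hp1, List.length_append]
        have := List.length_pos_of_ne_nil hr
        omega
      have h3 := hc2 s.length (List.mem_range.2 hlen)
      have hd : p.1.drop s.length = r := by rw [hp1]; simp
      have ht : p.1.take s.length = s := by rw [hp1]; simp
      rw [hd, ht, Bool.and_eq_true] at h3
      rcases List.append_eq_append_iff.1 hy with ⟨c, hr1, hy2⟩ | ⟨c, hr1, hy2⟩
      · -- r = q.1 ++ c
        have h4 := h3.2
        rw [hr1] at h4
        have hpf : q.1.isPrefixOf (q.1 ++ c) = true :=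
          List.isPrefixOf_iff_prefix.2 ⟨c, rfl⟩
        rw [hpf] at h4
        simp only [Bool.not_true, Bool.false_or, beq_iff_eq, List.drop_left] at h4
        have h5 := join_of_nf x y h4
        rw [hy2]
        simpa [List.append_assoc] using h5
      · -- q.1 = r ++ c
        have h4 := h3.1
        rw [hr1] at h4
        have hpf : r.isPrefixOf (r ++ c) = true :=
          List.isPrefixOf_iff_prefix.2 ⟨c, rfl⟩
        rw [hpf] at h4
        simp only [Bool.not_true, Bool.false_or, beq_iff_eq, List.drop_left] at h4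
        have h5 := join_of_nf x y' h4
        rw [hy2]
        simpa [List.append_assoc] using h5

theorem main : LC := by
  rintro u v w ⟨x, y, p, hp, rfl, rfl⟩ ⟨x', y', q, hq, h, rfl⟩
  rcases le_total x.length x'.length with hle | hle
  · exact crit hp hq x x' y y' h hle
  · obtain ⟨z, h1, h2⟩ := crit hq hp x' x y' y h.symm hle
    exact ⟨z, h2, h1⟩

end Pool.Agent.W309.BGRLC
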